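import Pool.Agent.MP_1acf33_an.Mg.Main

namespace Pool.Agent.Results.MP_1acf33_an.Calkin

open Pool.Agent.MP_1acf33_an

universe u

theorem result (A : Type u) [CStarAlgebra A] [TopologicalSpace.SeparableSpace A] :
    ∃ (X : Type u) (_ : NormedAddCommGroup X) (_ : NormedSpace ℂ X) (_ : CompleteSpace X)
      (φ : (X →L[ℂ] X) →ₐ[ℂ] A),
      Continuous φ ∧ Function.Surjective φ ∧ ∀ S : X →L[ℂ] X, φ S = 0 ↔ IsCompactOperator S := by
  obtain ⟨X, i1, i2, i3, e, h1, h2⟩ := exists_calkin_equiv A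
  let f : (X →L[ℂ] X) →ₗ[ℂ] A :=
    e.toLinearEquiv.toLinearMap ∘ₗ (compactOperator (RingHom.id ℂ) X X).mkQ
  refine ⟨X, i1, i2, i3, AlgHom.ofLinearMap f h1 h2, ?_, ?_, fun S => ?_⟩
  · exact e.continuous.comp continuous_quot_mk
  · exact e.surjective.comp (Submodule.mkQ_surjective _)
  · change e (Submodule.Quotient.mk S) = 0 ↔ _
    rw [map_eq_zero_iff e e.injective, Submodule.Quotient.mk_eq_zero]
    rfl

end Pool.Agent.Results.MP_1acf33_an.Calkin
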